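import Pool.Agent.ZRT.StmtsA

/-!
# ZRT: hyperbolic comparison for a pair of differential inequalities (CSH)
-/

noncomputable section

open scoped Topology
open Set Filter

namespace Pool.Agent.ZRT.H68

open Pool.Agent.ZRT

/-- a function with nonnegative derivative which starts at `0` is nonnegative on `[0,∞)` -/
theorem nonneg_of_deriv {f f' : ℝ → ℝ} (h : ∀ t, HasDerivAt f (f' t) t)
    (h0 : 0 ≤ f 0) (hf : ∀ t, 0 ≤ t → 0 ≤ f' t) : ∀ t, 0 ≤ t → 0 ≤ f t := by
  intro t ht
  have hmono : MonotoneOn f (Ici 0) := by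
    refine monotoneOn_of_deriv_nonneg (convex_Ici 0)
      (fun x _ => (h x).continuousAt.continuousWithinAt)
      (fun x _ => (h x).differentiableAt.differentiableWithinAt) ?_
    intro x hx
    rw [interior_Ici] at hx
    rw [(h x).deriv]
    exact hf x hx.le
  exact h0.trans (hmono (mem_Ici.2 le_rfl) (mem_Ici.2 ht) ht)

theorem csh_eps {α β δ κ : ℝ → ℝ} (hα : ∀ t, HasDerivAt α (2 * β t) t)
    (hδ : ∀ t, HasDerivAt δ (2 * κ t) t) (hα0 : ∀ t, 0 ≤ α t) (hδ0 : ∀ t, 0 ≤ δ t)
    (hβ : ∀ t, β t ^ 2 ≤ α t * δ t) (hκ : ∀ t, κ t ^ 2 ≤ α t * δ t) (h0 : α 0 = 0)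
    {ε : ℝ} (hε : 0 < ε) {t : ℝ} (ht : 0 ≤ t) :
    Real.sqrt (α t) ≤ ε * Real.cosh t + Real.sqrt (δ 0 + ε ^ 2) * Real.sinh t := by
  have he2 : 0 < ε ^ 2 := by positivity
  have ha : ∀ s, 0 < α s + ε ^ 2 := fun s => by linarith [hα0 s]
  have hb : ∀ s, 0 < δ s + ε ^ 2 := fun s => by linarith [hδ0 s]
  set a : ℝ → ℝ := fun s => Real.sqrt (α s + ε ^ 2) with hadef
  set b : ℝ → ℝ := fun s => Real.sqrt (δ s + ε ^ 2) with hbdef
  have hapos : ∀ s, 0 < a s := fun s => Real.sqrt_pos.2 (ha s)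
  have hbpos : ∀ s, 0 < b s := fun s => Real.sqrt_pos.2 (hb s)
  have hasq : ∀ s, a s ^ 2 = α s + ε ^ 2 := fun s => Real.sq_sqrt (ha s).le
  have hbsq : ∀ s, b s ^ 2 = δ s + ε ^ 2 := fun s => Real.sq_sqrt (hb s).le
  have hda : ∀ s, HasDerivAt a (β s / a s) s := by
    intro s
    have h1 : HasDerivAt (fun s => α s + ε ^ 2) (2 * β s) s := (hα s).add_const _
    have h2 := h1.sqrt (ha s).ne'
    refine h2.congr_deriv ?_
    show 2 * β s / (2 * a s) = β s / a s
    exact mul_div_mul_left _ _ two_ne_zero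
  have hdb : ∀ s, HasDerivAt b (κ s / b s) s := by
    intro s
    have h1 : HasDerivAt (fun s => δ s + ε ^ 2) (2 * κ s) s := (hδ s).add_const _
    have h2 := h1.sqrt (hb s).ne'
    refine h2.congr_deriv ?_
    show 2 * κ s / (2 * b s) = κ s / b s
    exact mul_div_mul_left _ _ two_ne_zero
  have hprod : ∀ s, α s * δ s ≤ (a s * b s) ^ 2 := by
    intro s
    rw [mul_pow, hasq, hbsq]
    nlinarith [hα0 s, hδ0 s, mul_nonneg (hα0 s) he2.le, mul_nonneg (hδ0 s) he2.le]
  have hβle : ∀ s, β s / a s ≤ b s := by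
    intro s
    rw [div_le_iff₀ (hapos s), mul_comm]
    have h1 : β s ^ 2 ≤ (a s * b s) ^ 2 := (hβ s).trans (hprod s)
    exact (le_abs_self _).trans (abs_le_of_sq_le_sq h1 (mul_pos (hapos s) (hbpos s)).le)
  have hκle : ∀ s, κ s / b s ≤ a s := by
    intro s
    rw [div_le_iff₀ (hbpos s)]
    have h1 : κ s ^ 2 ≤ (a s * b s) ^ 2 := (hκ s).trans (hprod s)
    exact (le_abs_self _).trans (abs_le_of_sq_le_sq h1 (mul_pos (hapos s) (hbpos s)).le)
  have ha0 : a 0 = ε := by
    show Real.sqrt (α 0 + ε ^ 2) = ε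
    rw [h0, zero_add, Real.sqrt_sq hε.le]
  -- the comparison functions
  have hdp : ∀ s, HasDerivAt (fun s => (ε * Real.cosh s + b 0 * Real.sinh s) - a s)
      ((ε * Real.sinh s + b 0 * Real.cosh s) - β s / a s) s := by
    intro s
    exact (((Real.hasDerivAt_cosh s).const_mul ε).add
      ((Real.hasDerivAt_sinh s).const_mul (b 0))).sub (hda s)
  have hdq : ∀ s, HasDerivAt (fun s => (ε * Real.sinh s + b 0 * Real.cosh s) - b s)
      ((ε * Real.cosh s + b 0 * Real.sinh s) - κ s / b s) s := by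
    intro s
    exact (((Real.hasDerivAt_sinh s).const_mul ε).add
      ((Real.hasDerivAt_cosh s).const_mul (b 0))).sub (hdb s)
  set p : ℝ → ℝ := fun s => (ε * Real.cosh s + b 0 * Real.sinh s) - a s with hpdef
  set q : ℝ → ℝ := fun s => (ε * Real.sinh s + b 0 * Real.cosh s) - b s with hqdef
  have hp0 : p 0 = 0 := by simp [hpdef, ha0]
  have hq0 : q 0 = 0 := by simp [hqdef]
  have hsum : ∀ s, 0 ≤ s → 0 ≤ p s + q s := by
    have h1 : ∀ s, HasDerivAt (fun s => Real.exp (-s) * (p s + q s))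
        (Real.exp (-s) * (-1) * (p s + q s) + Real.exp (-s) *
          (((ε * Real.sinh s + b 0 * Real.cosh s) - β s / a s) +
            ((ε * Real.cosh s + b 0 * Real.sinh s) - κ s / b s))) s := by
      intro s
      exact ((hasDerivAt_neg s).exp).mul ((hdp s).add (hdq s))
    have h2 := nonneg_of_deriv h1 (by simp [hp0, hq0]) (by
      intro s _
      have he := Real.exp_pos (-s)
      have h3 := hβle s
      have h4 := hκle s
      have h5 : Real.exp (-s) * (-1) * (p s + q s) + Real.exp (-s) *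
          (((ε * Real.sinh s + b 0 * Real.cosh s) - β s / a s) +
            ((ε * Real.cosh s + b 0 * Real.sinh s) - κ s / b s)) =
          Real.exp (-s) * ((b s - β s / a s) + (a s - κ s / b s)) := by
        simp only [hpdef, hqdef]
        ring
      rw [h5]
      exact mul_nonneg he.le (by linarith))
    intro s hs
    exact nonneg_of_mul_nonneg_right (h2 s hs) (Real.exp_pos (-s))
  have hpn : 0 ≤ p t := by
    have h1 : ∀ s, HasDerivAt (fun s => Real.exp s * p s)
        (Real.exp s * p s + Real.exp s *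
          ((ε * Real.sinh s + b 0 * Real.cosh s) - β s / a s)) s := by
      intro s
      exact (Real.hasDerivAt_exp s).mul (hdp s)
    have h2 := nonneg_of_deriv h1 (by simp [hp0]) (by
      intro s hs
      have h3 := hβle s
      have h4 := hsum s hs
      have h5 : Real.exp s * p s + Real.exp s *
          ((ε * Real.sinh s + b 0 * Real.cosh s) - β s / a s) =
          Real.exp s * ((p s + q s) + (b s - β s / a s)) := by
        simp only [hqdef]
        ring
      rw [h5]
      exact mul_nonneg (Real.exp_pos s).le (by linarith))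
    exact nonneg_of_mul_nonneg_right (h2 t ht) (Real.exp_pos t)
  have h1 : Real.sqrt (α t) ≤ a t := Real.sqrt_le_sqrt (by linarith)
  have h2 : a t ≤ ε * Real.cosh t + b 0 * Real.sinh t := by
    have := hpn
    simp only [hpdef] at this
    linarith
  exact h1.trans h2

/-- CSH -/
theorem csh : CshStatement := by
  intro α β δ κ hα hδ hα0 hδ0 hβ hκ h0 t ht
  have hlim : Tendsto (fun ε : ℝ => ε * Real.cosh t + Real.sqrt (δ 0 + ε ^ 2) * Real.sinh t)
      (𝓝[>] 0) (𝓝 (Real.sqrt (δ 0) * Real.sinh t)) := by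
    have hc : Continuous
        (fun ε : ℝ => ε * Real.cosh t + Real.sqrt (δ 0 + ε ^ 2) * Real.sinh t) := by
      fun_prop
    have h1 := hc.tendsto 0
    simp only [zero_mul, zero_add, ne_eq, OfNat.ofNat_ne_zero, not_false_eq_true, zero_pow,
      add_zero] at h1
    exact h1.mono_left nhdsWithin_le_nhds
  have hle : Real.sqrt (α t) ≤ Real.sqrt (δ 0) * Real.sinh t := by
    refine ge_of_tendsto hlim ?_
    filter_upwards [self_mem_nhdsWithin] with ε hε
    exact csh_eps hα hδ hα0 hδ0 hβ hκ h0 hε ht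
  have h1 : α t = Real.sqrt (α t) ^ 2 := (Real.sq_sqrt (hα0 t)).symm
  have h2 : (Real.sqrt (δ 0) * Real.sinh t) ^ 2 = δ 0 * Real.sinh t ^ 2 := by
    rw [mul_pow, Real.sq_sqrt (hδ0 0)]
  rw [h1, ← h2]
  exact pow_le_pow_left₀ (Real.sqrt_nonneg _) hle 2

end Pool.Agent.ZRT.H68
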