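import Pool.Agent.ZRT.StmtsA
import Pool.Agent.Helper5_RF.Common

/-!
# ZRT: derivatives of the inner products of Jacobi fields (XFL)
-/

noncomputable section

open scoped ContDiff Topology RealInnerProductSpace
set_option maxSynthPendingDepth 3
open Set

namespace Pool.Agent.ZRT.H68

open Pool.Agent.RF Pool.Agent.MVS

/-- the variation `(s,t) ↦ t (v + s w)` -/
def mm (v w : E5) (q : ℝ × ℝ) : E5 := q.2 • (v + q.1 • w)

/-- its derivative -/
def mL (v w : E5) (q : ℝ × ℝ) : ℝ × ℝ →L[ℝ] E5 :=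
  (ContinuousLinearMap.fst ℝ ℝ ℝ).smulRight (q.2 • w)
    + (ContinuousLinearMap.snd ℝ ℝ ℝ).smulRight (v + q.1 • w)

theorem mL_one_zero (v w : E5) (q : ℝ × ℝ) : mL v w q (1, 0) = q.2 • w := by
  simp [mL]

theorem mL_zero_one (v w : E5) (q : ℝ × ℝ) : mL v w q (0, 1) = v + q.1 • w := by
  simp [mL]

theorem hasFDerivAt_mm (v w : E5) (q : ℝ × ℝ) :
    HasFDerivAt (mm v w) (mL v w q) q := by
  have h1 : HasFDerivAt (fun r : ℝ × ℝ => r.1) (ContinuousLinearMap.fst ℝ ℝ ℝ) q := hasFDerivAt_fst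
  have h2 : HasFDerivAt (fun r : ℝ × ℝ => r.2) (ContinuousLinearMap.snd ℝ ℝ ℝ) q := hasFDerivAt_snd
  have h4 := (h1.smul_const w).const_add v
  have h5 := h2.smul h4
  refine h5.congr_fderiv ?_
  ext u
  · simp [mL]
  · simp [mL]

theorem contDiff_mm (v w : E5) : ContDiff ℝ ∞ (mm v w) := by
  unfold mm
  fun_prop

section
variable {F : E5 → E5} (hF : ContDiff ℝ ∞ F) {v w : E5}
include hF

theorem hasFDerivAt_cc (q : ℝ × ℝ) :
    HasFDerivAt (fun r => F (mm v w r)) ((fderiv ℝ F (mm v w q)).comp (mL v w q)) q := by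
  have h1 : DifferentiableAt ℝ F (mm v w q) := (hF.differentiable (by simp)).differentiableAt
  exact h1.hasFDerivAt.comp q (hasFDerivAt_mm v w q)

theorem hasFDerivAt_dcc {q : ℝ × ℝ} {W : ℝ × ℝ → E5} {W' : ℝ × ℝ →L[ℝ] E5}
    (hW : HasFDerivAt W W' q) :
    HasFDerivAt (fun r => fderiv ℝ F (mm v w r) (W r))
      ((fderiv ℝ F (mm v w q)).comp W' +
        ((fderiv ℝ (fderiv ℝ F) (mm v w q)).comp (mL v w q)).flip (W q)) q := by
  have h1 : DifferentiableAt ℝ (fderiv ℝ F) (mm v w q) :=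
    (H5.fd_contDiffAt hF.contDiffAt).differentiableAt (by simp)
  exact (h1.hasFDerivAt.comp q (hasFDerivAt_mm v w q)).clm_apply hW

theorem fd_cc (q : ℝ × ℝ) (e : ℝ × ℝ) :
    fderiv ℝ (fun r => F (mm v w r)) q e = fderiv ℝ F (mm v w q) (mL v w q e) := by
  rw [(hasFDerivAt_cc hF q).fderiv]
  rfl

/-- second derivatives of the variation -/
theorem fd2_cc (q : ℝ × ℝ) (e e' : ℝ × ℝ) {W' : ℝ × ℝ →L[ℝ] E5}
    (hW : HasFDerivAt (fun r => mL v w r e) W' q) :
    fderiv ℝ (fun r => fderiv ℝ (fun r => F (mm v w r)) r e) q e' =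
      fderiv ℝ F (mm v w q) (W' e') +
        fderiv ℝ (fderiv ℝ F) (mm v w q) (mL v w q e') (mL v w q e) := by
  have h1 : (fun r => fderiv ℝ (fun r => F (mm v w r)) r e) =
      (fun r => fderiv ℝ F (mm v w r) (mL v w r e)) := funext fun r => fd_cc hF r e
  rw [h1, (hasFDerivAt_dcc hF hW).fderiv]
  rfl

theorem hasDerivAt_F {z : ℝ → E5} {u : E5} {s : ℝ}
    (h : HasDerivAt z u s) : HasDerivAt (fun r => F (z r)) (fderiv ℝ F (z s) u) s := by
  have h1 : DifferentiableAt ℝ F (z s) := (hF.differentiable (by simp)).differentiableAt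
  exact h1.hasFDerivAt.comp_hasDerivAt s h

theorem hasDerivAt_DF {z w : ℝ → E5} {u w' : E5} {s : ℝ}
    (h : HasDerivAt z u s) (hw : HasDerivAt w w' s) :
    HasDerivAt (fun r => fderiv ℝ F (z r) (w r))
      (fderiv ℝ (fderiv ℝ F) (z s) u (w s) + fderiv ℝ F (z s) w') s := by
  have h1 : DifferentiableAt ℝ (fderiv ℝ F) (z s) :=
    (H5.fd_contDiffAt hF.contDiffAt).differentiableAt (by simp)
  exact (h1.hasFDerivAt.comp_hasDerivAt s h).clm_apply hw

end

theorem hasDerivAt_line (y : E5) (t : ℝ) : HasDerivAt (fun s : ℝ => s • y) y t := by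
  have h := (hasDerivAt_id t).smul_const y
  simpa using h

theorem hasFDerivAt_mL01 (v w : E5) (q : ℝ × ℝ) :
    HasFDerivAt (fun r => mL v w r (0, 1)) ((ContinuousLinearMap.fst ℝ ℝ ℝ).smulRight w) q := by
  have h1 : HasFDerivAt (fun r : ℝ × ℝ => r.1) (ContinuousLinearMap.fst ℝ ℝ ℝ) q := hasFDerivAt_fst
  have h2 := (h1.smul_const w).const_add v
  have h3 : (fun r : ℝ × ℝ => mL v w r (0, 1)) = fun r => v + r.1 • w := by
    funext r; exact mL_zero_one v w r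
  rw [h3]; exact h2

theorem hasFDerivAt_mL10 (v w : E5) (q : ℝ × ℝ) :
    HasFDerivAt (fun r => mL v w r (1, 0)) ((ContinuousLinearMap.snd ℝ ℝ ℝ).smulRight w) q := by
  have h1 : HasFDerivAt (fun r : ℝ × ℝ => r.2) (ContinuousLinearMap.snd ℝ ℝ ℝ) q := hasFDerivAt_snd
  have h2 := h1.smul_const w
  have h3 : (fun r : ℝ × ℝ => mL v w r (1, 0)) = fun r => r.2 • w := by
    funext r; exact mL_one_zero v w r
  rw [h3]; exact h2

/-- the derivative of `Jf` -/
theorem hasDerivAt_Jf {ex : E5 × E5 → E5} {m : E5} (hF : ContDiff ℝ ∞ (fun u : E5 => ex (m, u)))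
    (v w : E5) (t : ℝ) :
    HasDerivAt (Jf ex m v w)
      (fderiv ℝ (fderiv ℝ (fun u : E5 => ex (m, u))) (t • v) v (t • w)
        + fderiv ℝ (fun u : E5 => ex (m, u)) (t • v) w) t :=
  hasDerivAt_DF hF (hasDerivAt_line v t) (hasDerivAt_line w t)

/-- second derivative in the direction of the geodesic -/
theorem fd2_self {G : E5 → Bil E5} {ex : E5 × E5 → E5} (hB : Xb1Statement) (hG : IsCyl G)
    (hE : IsExp G ex) {m : E5} (hm : m ∈ Om (Fin 5)) (V : E5) (t : ℝ) :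
    fderiv ℝ (fderiv ℝ (fun u : E5 => ex (m, u))) (t • V) V V =
      - chris G (ex (m, t • V)) (fderiv ℝ (fun u : E5 => ex (m, u)) (t • V) V)
        (fderiv ℝ (fun u : E5 => ex (m, u)) (t • V) V) := by
  obtain ⟨hF, -, -, h4, -, -⟩ := hB G ex hG hE m hm
  have h1 := h4 V t
  have h2 : HasDerivAt (fun s : ℝ => Tf ex m V s)
      (fderiv ℝ (fderiv ℝ (fun u : E5 => ex (m, u))) (t • V) V V
        + fderiv ℝ (fun u : E5 => ex (m, u)) (t • V) 0) t :=
    hasDerivAt_DF hF (hasDerivAt_line V t) (hasDerivAt_const t V)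
  have h3 := h2.unique h1
  rw [map_zero, add_zero] at h3
  exact h3

/-- the Jacobi equation -/
theorem jacobi (hB : Xb1Statement) (hJ : JeqStatement) {G : E5 → Bil E5} {ex : E5 × E5 → E5}
    (hG : IsCyl G) (hE : IsExp G ex) {m : E5} (hm : m ∈ Om (Fin 5)) (v w : E5) (t : ℝ) :
    ∃ W' : E5, HasDerivAt (DJf G ex m v w) W' t ∧
      W' + chris G (ex (m, t • v)) (Tf ex m v t) (DJf G ex m v w t) =
        riem G (ex (m, t • v)) (Tf ex m v t) (Jf ex m v w t) (Tf ex m v t) := by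
  obtain ⟨hF, -, -, -, -, -⟩ := hB G ex hG hE m hm
  have em : ∀ s : ℝ, mm v w (0, s) = s • v := by
    intro s; simp [mm]
  let F : E5 → E5 := fun u => ex (m, u)
  have hF' : ContDiff ℝ ∞ F := hF
  let D : ℝ × ℝ → E5 := fun q => fderiv ℝ (fun r => fderiv ℝ (fun r => F (mm v w r)) r (1, 0)) q (0, 1)
        + chris G (F (mm v w q)) (fderiv ℝ (fun r => F (mm v w r)) q (0, 1))
          (fderiv ℝ (fun r => F (mm v w r)) q (1, 0))
  have hj := hJ (Fin 5) G (Om (Fin 5)) hG.metric univ (fun r => F (mm v w r)) isOpen_univ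
    (hF'.comp (contDiff_mm v w)).contDiffOn (fun q _ => hE.mem m hm _)
    (by
      intro q _
      rw [fd2_cc hF' _ _ _ (hasFDerivAt_mL01 v w q), fd_cc hF', mL_zero_one]
      have hg := fd2_self hB hG hE hm (v + q.1 • w) q.2
      have e1 : ((ContinuousLinearMap.fst ℝ ℝ ℝ).smulRight w) ((0 : ℝ), (1 : ℝ)) = 0 := by simp
      rw [e1, map_zero, zero_add]
      exact hg)
    D (fun q _ => rfl) (0, t) (mem_univ _)
  have eD : ∀ s : ℝ, DJf G ex m v w s = D (0, s) := by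
    intro s
    show deriv (Jf ex m v w) s + chris G (F (s • v)) (fderiv ℝ F (s • v) v)
      (fderiv ℝ F (s • v) (s • w)) = _
    show _ = fderiv ℝ (fun r => fderiv ℝ (fun r => F (mm v w r)) r (1, 0)) (0, s) (0, 1)
        + chris G (F (mm v w (0, s))) (fderiv ℝ (fun r => F (mm v w r)) (0, s) (0, 1))
          (fderiv ℝ (fun r => F (mm v w r)) (0, s) (1, 0))
    rw [fd2_cc hF' _ _ _ (hasFDerivAt_mL10 v w _), fd_cc hF', fd_cc hF',
      mL_zero_one, mL_one_zero, em, (hasDerivAt_Jf hF v w s).deriv]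
    have e1 : ((ContinuousLinearMap.snd ℝ ℝ ℝ).smulRight w) ((0 : ℝ), (1 : ℝ)) = w := by simp
    rw [e1]
    simp only [zero_smul, add_zero]
    rw [add_comm (fderiv ℝ F (s • v) w)]
  have eT : fderiv ℝ (fun r => F (mm v w r)) (0, t) (0, 1) = Tf ex m v t := by
    rw [fd_cc hF', mL_zero_one, em]
    simp [Tf, dE, F]
  have eV : fderiv ℝ (fun r => F (mm v w r)) (0, t) (1, 0) = Jf ex m v w t := by
    rw [fd_cc hF', mL_one_zero, em]
    rfl
  refine ⟨fderiv ℝ D (0, t) (0, 1), ?_, ?_⟩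
  · have h1 : HasDerivAt (fun s : ℝ => ((0 : ℝ), s)) ((0 : ℝ), (1 : ℝ)) t :=
      (hasDerivAt_const t (0 : ℝ)).prodMk (hasDerivAt_id t)
    have h4 := hj.1.hasFDerivAt.comp_hasDerivAt t h1
    have h5 : DJf G ex m v w = fun s => D (0, s) := funext eD
    rw [h5]
    exact h4
  · have h7 := hj.2
    rw [eT, eV, em] at h7
    rw [eD t]
    exact h7

/-- XFL -/
theorem xfl (hB : Xb1Statement) (hM : McoStatement) (hJ : JeqStatement) : XflStatement := by
  intro G ex hG hE m hm v w w' t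
  have hS := hG.metric
  obtain ⟨hF, -, h3, -, -, -⟩ := hB G ex hG hE m hm
  have hc := h3 v t
  have hct : (fun s : ℝ => ex (m, s • v)) t ∈ Om (Fin 5) := hE.mem m hm _
  have hV : ∀ w, HasDerivAt (Jf ex m v w) (deriv (Jf ex m v w) t) t := fun w =>
    (hasDerivAt_Jf hF v w t).differentiableAt.hasDerivAt
  obtain ⟨D1, hD1, hR1⟩ := jacobi hB hJ hG hE hm v w t
  obtain ⟨D2, hD2, hR2⟩ := jacobi hB hJ hG hE hm v w' t
  refine ⟨?_, ?_, ?_⟩
  · exact hM (Fin 5) G (Om (Fin 5)) hS _ _ _ _ _ _ t hct hc (hV w) (hV w')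
  · have h6 := hM (Fin 5) G (Om (Fin 5)) hS _ _ _ _ _ _ t hct hc hD1 (hV w')
    refine h6.congr_deriv ?_
    rw [hR1]
    rfl
  · have h6 := hM (Fin 5) G (Om (Fin 5)) hS _ _ _ _ _ _ t hct hc hD1 hD2
    refine h6.congr_deriv ?_
    rw [hR1, hR2]

end Pool.Agent.ZRT.H68
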